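import Mathlib
import Pool.Agent.N178.HX.Parts
import Pool.Agent.N178.MU.AJ

/-!
# Homologically trivial cycles and the Abel–Jacobi map: the predicted ranges of Hodge numbers

Let `X` be a complex abelian variety (`AV`, up to isogeny) in one of the following two classes.

(a) All simple factors of `X` are factors of an abelian variety `A` of dimension at most three (for
instance `X` is a power of `A`).

(b) There are finitely many CM types `T k`, divided into independent blocks, such that for each block
all CM types of the CM fields in this block are conjugate, or the total dimension of the block is at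
most three, or the block consists of all CM types of a Galois CM field of degree at most six; and
each simple factor of `X` is a factor of one of the abelian varieties with the CM types `T k`, or has
no complex multiplication and belongs to one of the classes in `Typ` below (of any dimension), where
an imaginary quadratic field which acts with two different multiplicities on the tangent space must
be the field of an elliptic curve of the first kind (fourfolds with such an action are excluded).

Let `M = (X, p)` be a direct summand of the Chow motive of `X`, for example `M = h(V)`, where `V` is a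
smooth projective variety which is the image of `X`, or the image of a product of curves of positive
genus such that the product of their Jacobians is `X`. The Chow groups have rational coefficients.

The theorem, for cycles of dimension `i` on `M`:

(1) if `h^(s, t) = 0` for `s ≤ i`, `t ≥ i + 1`, all homologically trivial cycles are zero;

(2) if `h^(s, t) = 0` for `s ≤ i`, `t ≥ i + 2`, the Abel–Jacobi map is injective: homologically
trivial cycles with torsion Abel–Jacobi image are zero;

(3) if `h^(s, t) = 0` for `s ≤ i - 1`, `t ≥ i + 2`, homologically trivial cycles are algebraically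
equivalent to zero.

(By the symmetry of the Hodge numbers the conditions are the same for `(t, s)`.) These are the ranges
predicted by the conjectures of Bloch and Beilinson. If `V` is defined over `ℚ` (or any subfield of
`ℂ`) then (2) shows that the kernel of the Abel–Jacobi map on `CH_i(V)^0` is torsion, because the Chow
groups of `V` with rational coefficients inject into those of the complex variety.

The structures `ChowTheory` (`Pool.Agent.N178.BL.Defs`), `Projectors` (`Pool.Agent.N178.MU.Defs`) and
`AbelJacobi` (`Pool.Agent.N178.MU.AJDefs`) collect the known properties of the Chow groups of complex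
abelian varieties which are used: the formal properties of correspondences; Kimura's theorem that
homologically trivial endomorphisms of the motive are nilpotent; the semisimplicity of the category of
motives of abelian varieties modulo homological equivalence (Jannsen, Lieberman); the algebraic
classes are a system `Sys` (Lefschetz, Markman); the algebraicity of the isomorphisms
`H^n(Y, ℚ) ≅ H_n(Y, ℚ)` given by a polarization (Lieberman); the projectors of Deninger and Murre;
Künnemann's isomorphism `h_n(X) ≅ h^n(X)` up to a twist, and Beauville's theorem that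
`CH^p(h^n(X)) = 0` for `p ≤ 1` and `n > 2 p`; the functoriality of the Abel–Jacobi map and of
algebraic equivalence; the injectivity of the Albanese map on `CH_0(h_1(Y))`.
-/

namespace Pool.Agent.Results.MP_e28333_ag.HodgeRanges

open Module NumberField Pool.Agent.Y90 Pool.Agent.R915
open Pool.Agent.H204R3.CM (IsCMType)
open Pool.Agent.W547.KB (CMPair CMAV single)
open Pool.Agent.W547.LN (SameType)
open Pool.Agent.N830.HC (av)
open Pool.Agent.N178.BL (ChowTheory)
open Pool.Agent.N178.MU (Projectors AbelJacobi HodgeZero)

/-- The classes of simple abelian varieties: dimension at most three; or the endomorphism algebra is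
an imaginary quadratic field of signature `(p, q)` with `p, q ≤ 3` (and trivial discriminant for
`(3, 3)`); or Albert type I or II of relative dimension at most three; or dimension five and
endomorphism algebra `ℚ`; or Albert type I or II, any dimension, with the largest possible Hodge
group. -/
def Typ (Y : AV) : Prop :=
  finrank ℚ Y.H ≤ 6 ∨ QuadMult Y ∨ RealMult Y ∨ FiveDim Y ∨ FullHodge Y

/-- Each simple factor `Y` of `X` is a factor of an abelian variety with one of the CM types `T k`; or
it has no complex multiplication, belongs to one of the classes in `Typ`, and if `ℚ(√-d)` acts on `Y`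
with two different multiplicities then `Y` is not a fourfold and the elliptic curve `E` with complex
multiplication by this field is a factor of an abelian variety with one of the CM types `T k`. -/
def HasFactorsIn {K : Type} (T : K → CMPair) (X : AV) : Prop :=
  ∀ Y, IsFactor Y X → (∃ k, IsFactor Y (av (single (T k)))) ∨ (¬ HasCMult Y ∧ Typ Y ∧
    ∀ d : ℚ, Unbalanced Y d → finrank ℚ Y.H ≠ 8 ∧
      ∃ k E, IsFactor E (av (single (T k))) ∧ finrank ℚ E.H = 2 ∧ Unbalanced E d)

/-- All CM types of the CM fields in the block `B` are conjugate, simultaneously: for each family of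
CM types `Ψ k` of the CM fields there is an automorphism of `ℂ` which takes `Ψ k` to the CM type
`T k`, for all `k` in `B`. -/
def AllConjugate {K : Type} (T : K → CMPair) (B : Set K) : Prop :=
  ∀ Ψ : ∀ k, Set ((T k).E →+* ℂ), (∀ k, IsCMType (Ψ k)) →
    ∃ σ : ℂ ≃+* ℂ, ∀ k ∈ B, ∀ φ, φ ∈ Ψ k ↔ (σ : ℂ →+* ℂ).comp φ ∈ (T k).Φ

/-- The CM fields of the block `B` are subfields of the Galois CM field `L`, and all CM types of `L`
occur. -/
def AllTypes {K : Type} (T : K → CMPair) (B : Set K) (L : Type) [Field L] [NumberField L]
    [IsCMField L] : Prop :=
  IsGalois ℚ L ∧ (∀ k ∈ B, Nonempty ((T k).E →+* L)) ∧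
    ∀ (Φ : Set (L →+* ℂ)) (hΦ : IsCMType Φ), ∃ k ∈ B, SameType ⟨L, Φ, hΦ⟩ (T k)

/-- The total dimension of the block is at most three. -/
def DimAtMostThree {K : Type} (T : K → CMPair) (B : Set K) : Prop :=
  ∃ F : Finset K, (∀ k, k ∈ F ↔ k ∈ B) ∧ ∑ k ∈ F, finrank ℚ (T k).E ≤ 6

/-- The blocks `{k | b k = j}` are independent: automorphisms of `ℂ` can be prescribed separately on
the complex embeddings of the CM fields of the different blocks. (The composita of the Galois
closures of the fields of the different blocks are linearly disjoint over `ℚ`.) -/
def IsIndependent {K J : Type} (T : K → CMPair) (b : K → J) : Prop :=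
  ∀ τ : J → (ℂ ≃+* ℂ), ∃ σ : ℂ ≃+* ℂ, ∀ k (φ : (T k).E →+* ℂ),
    (σ : ℂ →+* ℂ).comp φ = (τ (b k) : ℂ →+* ℂ).comp φ

/-- The condition on the block `B`. -/
def IsGoodBlock {K : Type} (T : K → CMPair) (B : Set K) : Prop :=
  AllConjugate T B ∨ (∃ (L : Type) (_ : Field L) (_ : NumberField L) (_ : IsCMField L),
    AllTypes T B L ∧ finrank ℚ L ≤ 6) ∨ DimAtMostThree T B

/-- The classes (a) and (b) of abelian varieties. -/
def IsGood (X : AV) : Prop :=
  (∃ A : AV, finrank ℚ A.H ≤ 6 ∧ ∀ Y, IsFactor Y X → IsFactor Y A) ∨
    ∃ (K J : Type) (_ : Fintype K) (T : K → CMPair) (b : K → J), IsIndependent T b ∧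
      (∀ j, IsGoodBlock T {k | b k = j}) ∧ HasFactorsIn T X

theorem ghc {C : ChowTheory} {X : AV} (hX : IsGood X) : Pool.Agent.N178.HX.GHC C.alg X := by
  rcases hX with ⟨A, hA, hX⟩ | ⟨K, J, _, T, b, hb, hj, hX⟩
  · exact Pool.Agent.N178.HX.pow3 Pool.Agent.N178.HX.t_MAINT Pool.Agent.N178.HX.t_COV
      Pool.Agent.N178.HX.t_POW A X hA hX C.alg
  · exact Pool.Agent.N178.HX.uncond' Pool.Agent.N178.HX.t_MAINT Pool.Agent.N178.HX.t_COV T b hb
      hj C.alg X hX

/-- **Homologically trivial cycles `z` of dimension `i` on the direct summand `(X, p)` of the Chow
motive of `X`**: they are zero, they are zero if their Abel–Jacobi image is torsion, or they are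
algebraically equivalent to zero, under the three conditions on the Hodge numbers of `(X, p)`. The
cycles on `X` are the correspondences from the point `O` to `X`. -/
theorem result (C : ChowTheory) (K : Projectors C) (O : AV) (hO : finrank ℚ O.H = 0)
    (A : AbelJacobi K O) (X : AV) (hX : IsGood X) (p : C.Co X X) (hp : C.IsMotive p) (i : ℤ)
    (z : C.Co O X) (hz : C.IsDeg i z) (h0 : ∀ ω, C.pb z ω = 0) :
    ((∀ s t : ℕ, (s ≤ i ∧ i + 1 ≤ t) ∨ (t ≤ i ∧ i + 1 ≤ s) → HodgeZero p s t) →
      C.o p z = 0) ∧
    ((∀ s t : ℕ, (s ≤ i ∧ i + 2 ≤ t) ∨ (t ≤ i ∧ i + 2 ≤ s) → HodgeZero p s t) →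
      A.Triv z → C.o p z = 0) ∧
    ((∀ s t : ℕ, (s + 1 ≤ i ∧ i + 2 ≤ t) ∨ (t + 1 ≤ i ∧ i + 2 ≤ s) → HodgeZero p s t) →
      A.Alg (C.o p z)) :=
  ⟨fun h => Pool.Agent.N178.MU.zero_range (ghc hX) K hO hp h hz h0,
    fun h ht => Pool.Agent.N178.MU.aj_range (ghc hX) A hO hp h hz h0 ht,
    fun h => Pool.Agent.N178.MU.alg_range (ghc hX) A hO hp h hz h0⟩

end Pool.Agent.Results.MP_e28333_ag.HodgeRanges
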