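import Pool.Agent.N567.MD.MainP

/-!
# Products of homologically trivial cycles over number fields

Let `𝒱` be a class of varieties over a field `k` (the rational numbers, say) which satisfy the
standard conjecture of Lefschetz type, closed under products and smooth complete intersections (the
hypotheses used here, `IsLefschetzClass` and `HasSections`, are consequences).

If the Abel-Jacobi maps over a number field are injective up to torsion, products of homologically
trivial cycles vanish. It is shown that this consequence is equivalent to its special case of squares
in the middle dimension, to the vanishing of the action of homologically trivial self-correspondences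
on homologically trivial cycles in the middle dimension, and to the statement that `CH^j_hom(X)`
depends only on `H^m(X)`, `m ≥ 2 j - 1`. It implies that the motives are finite-dimensional in the
sense of Kimura, that there are Chow-Kunneth decompositions, that the Abel-Jacobi maps are injective
on zero-cycles, and that homologically trivial one-cycles depend only on `H^(2n-3)(X)`, `n = dim X`.
-/

set_option autoImplicit false

universe u v w

namespace Pool.Agent.Results.MP_e28333_ag.ProductsOfCycles

open Pool.Agent.H914 Pool.Agent.N164.Prim Pool.Agent.N567.Mid
open Pool.Agent.W492.BB (TheoryData WeilTheoryData)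

/-- Let `𝒱` be a Lefschetz class of varieties with enough sections (with Chow groups `C`, a Weil
cohomology `H` and the kernels `N X j` of the Abel-Jacobi maps) which contains a curve. The following
are equivalent:

* products of homologically trivial classes vanish;
* for arbitrarily large `j`: the squares of the homologically trivial classes in `CH^j(X)` vanish for
  all varieties `X` of dimension `4 j - 1`;
* the compositions of homologically trivial self-correspondences (of degree zero) vanish;
* for arbitrarily large `j` every variety `X` of dimension `2 j - 1` is covered by a variety `X'` of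
  dimension `2 j' - 1` such that the homologically trivial self-correspondences of `X'` act as zero
  on the homologically trivial classes in `CH^(j')(X')`;
* correspondences which act as zero on `H^m(X)` for `m ≥ 2 j - 1` act as zero on the homologically
  trivial classes in `CH^j(X)`, for all `X` in `𝒱` and all `j`.

If this is the case,

* all varieties in `𝒱` have finite-dimensional motives and Chow-Kunneth decompositions;
* the Abel-Jacobi map for zero-cycles is injective;
* correspondences which act as zero on `H^(2n-3)(X)`, `n = dim X`, act as zero on the homologically
  trivial classes in `CH^(n-1)(X)`. -/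
theorem result {k : Type u} [Field k] {𝒱 : VarClass k} {C : TheoryData.{u, v, 0} 𝒱 ℚ}
    [IsChowTheory C] {K : Type w} [Field K] {H : WeilTheoryData.{u, v, w} C K} [IsWeilTheory H]
    (hg : IsGradedCommutative H) (hL : IsLefschetzClass H) (hS : HasSections H) {T : 𝒱.Obj}
    (hT : T.dim = 1) {N : ∀ X : 𝒱.Obj, ℕ → Sub C X} (hN : IsAbelJacobiKernel H N) :
    List.TFAE [ProductsVanish H,
      ∀ e : ℕ, ∃ j, e ≤ j ∧ ∀ X : 𝒱.Obj, X.dim + 1 = 4 * j → ∀ z : C.A X, HomTriv H j z →
        C.mul z z = zero C X,
      ∀ (X : 𝒱.Obj) (Γ Δ : Cor C X X), HomTriv H X.dim Γ → HomTriv H X.dim Δ →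
        comp C Γ Δ = zero C (X.prod X),
      ∀ e : ℕ, ∃ j, e ≤ j ∧ ∀ X : 𝒱.Obj, X.dim + 1 = 2 * j →
        ∃ (X' : 𝒱.Obj) (j' : ℕ), Covers C X' X ∧ X'.dim + 1 = 2 * j' ∧ HomActsTrivially H X' j',
      DependsOn H (fun j m => 2 * j - 1 ≤ m)] ∧
    (ProductsVanish H → (∀ X : 𝒱.Obj, IsKimuraFinite C X ∧ HasCK H X) ∧
      (∀ (X : 𝒱.Obj) (z : C.A X), Mem (N X X.dim) z → z = zero C X) ∧
      ∀ (X Y : 𝒱.Obj) (j i : ℕ) (Γ : Cor C X Y), X.dim = j + 1 → Maps C Γ j i →
        Kills H Γ (2 * j - 1) → ∀ z : C.A X, HomTriv H j z → C.act Γ z = zero C Y) :=
  mainP inferInstance inferInstance hg hL hS hT hN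

end Pool.Agent.Results.MP_e28333_ag.ProductsOfCycles
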