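import Mathlib
import Pool.Agent.N214.TD.Gen

/-!
# Zero-cycles on intersections of diagonal forms of Vandermonde type: surfaces suffice

Let `K` be an algebraically closed field (for the question: an algebraic closure of `ℚ`), let
`t_1, …, t_N` be different elements of `K`, let `w_j = ∏_{l ≠ j} (t_j - t_l)⁻¹`, and let `m_1, …, m_N` be
positive numbers which are not zero in `K`. For `n < N` let `X_n` be the variety with the `N - n - 1`
equations

  `∑_j w_j t_j ^ k y_j ^ (m_j) = 0`, `0 ≤ k ≤ N - n - 2`,

in the (weighted, if the `m_j` are different) projective space with the coordinates `y_1, …, y_N`.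
If all `m_j` are equal to `m`, then
* `X_1` is a curve, the Kummer covering of the line defined by the `m`-th roots of `x - t_j`;
* `X_(N-3)` is an intersection of two diagonal forms of degree `m`, and after multiplication of the
  coordinates by constants every smooth intersection of two diagonal forms is of this form
  (MP_cb388a_ag.TwoDiagonalForms);
* `X_(N-2)` is the Fermat hypersurface of degree `m` (after multiplication of the coordinates by
  constants), for all `t_j`; `X_(N-1)` is the projective space.

**Theorem.** (1) `y ≠ 0` is a point of `X_n` if and only if there is a polynomial `f ≠ 0` of degree `≤ n`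
in one variable with `y_j ^ (m_j) = f (t_j)` for all `j`. (2) The gradients of the equations are linearly
independent at all points of `X_n`, so `X_n` is quasi-smooth (smooth if all `m_j` are equal). (3) The
coordinatewise product defines maps `X_a × X_b → X_(a+b)` (`a + b < N`) which are surjective (`a, b ≥ 1`).
(4) Let `∼` be transitive relations on the `X_n` which are compatible with these products: if
`x ∼ y` on `X_a` and `z` is a point of `X_b` then `x z ∼ y z` on `X_(a+b)`. Let `r ≥ 2`. If `x ∼ y` for all
points `x, y` of `X_r`, then `x ∼ y` for all points `x, y` of `X_n` and all `n` with `r ≤ n < N`.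

Application to the question. We take all `m_j = m`. Let `x ∼ y` mean that the classes of the points `x` and `y`
are equal in `CH_0 (X_n) ⊗ ℚ`; this is compatible with the products, because `y ↦ y z` is a morphism
`X_a → X_(a+b)`. For `n ≥ 2` the complete intersection `X_n` has no nontrivial Albanese variety, and the
conjecture of Bloch and Beilinson for zero-cycles (`i = n`) says that all homologically trivial
zero-cycles on `X_n` (defined over number fields) are torsion, that is, all points are
equivalent. So the conjecture for zero-cycles on the surface `X_2` implies it for zero-cycles on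
all the varieties `X_n`, `n ≥ 2`, with the same `t_1, …, t_N` and `m`. For every `n ≥ 2`, the
conjecture for zero-cycles on a single surface, `X_2` for an arbitrary choice of `t_1, …, t_(n+2)`,
implies it for the Fermat hypersurface of degree `m` and dimension `n`; and for all intersections of two
diagonal forms of dimension `n` it follows from surfaces.

helper214, with helper918, helper738 and helper301 (interpolation, product decomposition,
smoothness).
-/

set_option autoImplicit false

namespace Pool.Agent.Results.MP_e28333_ag.VandermondeSurfaces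

open Finset Polynomial

/-- The weight `w_j = ∏_{l ≠ j} (t_j - t_l)⁻¹`. -/
def weight {K : Type} [Field K] {N : ℕ} (t : Fin N → K) (j : Fin N) : K :=
  ∏ l ∈ univ.erase j, (t j - t l)⁻¹

/-- `y` gives a point of `X_n`: it is not zero and satisfies the `N - n - 1` equations
`∑_j w_j t_j ^ k y_j ^ (m_j) = 0`, `0 ≤ k ≤ N - n - 2`. -/
def OnX {K : Type} [Field K] {N : ℕ} (t : Fin N → K) (m : Fin N → ℕ) (n : ℕ) (y : Fin N → K) :
    Prop :=
  y ≠ 0 ∧ ∀ k : ℕ, k + n + 2 ≤ N → ∑ j, weight t j * t j ^ k * y j ^ m j = 0

/-- The relations `R n` on the points of `X_n` are transitive and compatible with the products. -/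
structure IsCompatible {K : Type} [Field K] {N : ℕ} (t : Fin N → K) (m : Fin N → ℕ)
    (R : ℕ → (Fin N → K) → (Fin N → K) → Prop) : Prop where
  trans : ∀ n x y z, R n x y → R n y z → R n x z
  mul : ∀ a b x y z, OnX t m a x → OnX t m a y → OnX t m b z → a + b < N → R a x y →
    R (a + b) (fun j => x j * z j) (fun j => y j * z j)

theorem onX_iff {K : Type} [Field K] {N : ℕ} (t : Fin N → K) (m : Fin N → ℕ) (n : ℕ)
    (y : Fin N → K) : OnX t m n y ↔ Pool.Agent.N214.TD.IsPoint t m n y := by
  constructor
  · intro h
    exact ⟨h.1, fun k hk => h.2 k (by omega)⟩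
  · intro h
    exact ⟨h.1, fun k hk => h.2 k (by omega)⟩

/-- **Main result.** -/
theorem result (K : Type) [Field K] [IsAlgClosed K] (N : ℕ) (t : Fin N → K)
    (ht : Function.Injective t) (m : Fin N → ℕ) (hm : ∀ j, (m j : K) ≠ 0) :
    (∀ n < N, ∀ y, OnX t m n y ↔
      y ≠ 0 ∧ ∃ f : K[X], f ≠ 0 ∧ f.natDegree ≤ n ∧ ∀ j, y j ^ m j = f.eval (t j)) ∧
    (∀ n < N, ∀ y, OnX t m n y →
      LinearIndependent K fun (k : Fin (N - n - 1)) (j : Fin N) =>
        weight t j * t j ^ (k : ℕ) * ((m j : K) * y j ^ (m j - 1))) ∧
    (∀ a b, a + b < N → ∀ x y, OnX t m a x → OnX t m b y →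
      OnX t m (a + b) (fun j => x j * y j)) ∧
    (∀ a b, 1 ≤ a → 1 ≤ b → a + b < N → ∀ z, OnX t m (a + b) z →
      ∃ x y, OnX t m a x ∧ OnX t m b y ∧ z = fun j => x j * y j) ∧
    (∀ R, IsCompatible t m R → ∀ r, 2 ≤ r → (∀ x y, OnX t m r x → OnX t m r y → R r x y) →
      ∀ n, r ≤ n → n < N → ∀ x y, OnX t m n x → OnX t m n y → R n x y) := by
  have hm0 : ∀ j, m j ≠ 0 := by
    intro j h
    exact hm j (by simp [h])
  refine ⟨?_, ?_, ?_, ?_, ?_⟩
  · intro n hn y
    rw [onX_iff, Pool.Agent.N214.TD.hLAG K N n t m y ht hm0 hn]
    constructor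
    · intro h
      exact ⟨((Pool.Agent.N214.TD.hLAG K N n t m y ht hm0 hn).2 h).ne_zero, h⟩
    · intro h
      exact h.2
  · intro n hn y hy
    exact Pool.Agent.N214.TD.smooth_gen ht hm hn ((onX_iff t m n y).1 hy)
  · intro a b hab x y hx hy
    rw [onX_iff] at *
    exact Pool.Agent.N214.TD.isPoint_mul ht hm0 hab hx hy
  · intro a b ha hb hab z hz
    obtain ⟨x, y, hx, hy, h⟩ :=
      Pool.Agent.N214.TD.exists_mul ht hm0 hab ha hb ((onX_iff t m _ z).1 hz)
    exact ⟨x, y, (onX_iff t m _ x).2 hx, (onX_iff t m _ y).2 hy, funext h⟩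
  · intro R hR r hr h2 n hn hnN x y hx hy
    refine Pool.Agent.N214.TD.all_equiv ht hm0 (R := R) hR.trans ?_ hr ?_ n hn hnN x y
      ((onX_iff t m _ x).1 hx) ((onX_iff t m _ y).1 hy)
    · intro a b x y z hx hy hz hab hxy
      exact hR.mul a b x y z ((onX_iff t m _ x).2 hx) ((onX_iff t m _ y).2 hy)
        ((onX_iff t m _ z).2 hz) hab hxy
    · intro x y hx hy
      exact h2 x y ((onX_iff t m _ x).2 hx) ((onX_iff t m _ y).2 hy)

end Pool.Agent.Results.MP_e28333_ag.VandermondeSurfaces
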